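import Pool.Agent.H78.GS.TF3

/-!
# Theorem (G), row FLCE: the frequencies along the edge of a prime number
-/

set_option autoImplicit false

open Finset Pool.Agent.H6.N4D

namespace Pool.Agent.H55.G3

open Pool.Agent.H78.GS

theorem LCE_int {p b a a' : ℕ} (hb : 1 ≤ b) (h : p * a ≡ a' [MOD b]) :
    ∃ k : ℤ, (p : ℝ) * (a / b) - a' / b = k := by
  obtain ⟨k, hk⟩ := (Nat.modEq_iff_dvd).1 h
  refine ⟨-k, ?_⟩
  have hb0 : (b : ℝ) ≠ 0 := by
    have : (0 : ℝ) < b := by exact_mod_cast hb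
    exact this.ne'
  have h1 : (a' : ℝ) - p * a = b * k := by
    have h2 : ((((a' : ℕ) : ℤ) - ((p * a : ℕ) : ℤ) : ℤ) : ℝ) = ((((b : ℕ) : ℤ) * k : ℤ) : ℝ) := by
      rw [hk]
    push_cast at h2
    exact h2
  push_cast
  field_simp
  linarith

theorem pf_LCE (hSIZ : T_SIZ) : T_LCE := by
  intro K _
  obtain ⟨X₀, hS⟩ := hSIZ
  refine ⟨X₀, ?_⟩
  intro S e₀ e₁ ν T θ φ p b a a' t j i hOk _ hX he0 he0' he1 he1' hν hν' hT _ _ hp hb hmod hRE hAt
  obtain ⟨-, -, -, hr100, hh4, -, -, -, -, hlp, -⟩ := hS S hOk hX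
  have hr0 : 0 < S.rho := hOk.hr0
  have hh0 : 0 < S.h := hOk.hh
  have hpp : p.Prime := by
    unfold Par.Q Pr at hp
    exact (mem_filter.1 hp).2
  have hp1 : 1 ≤ p := hpp.one_le
  have hp0 : (0 : ℝ) < p := by exact_mod_cast hp1
  have hx0 : 0 < S.x t := Par.x_pos t
  have hx0' : 0 < S.x (t - S.l p) := Par.x_pos _
  have hr4 : S.rho ^ 4 ≤ 1 / 1000 := by
    calc S.rho ^ 4 ≤ (1 / 100) ^ 4 := by gcongr
      _ ≤ 1 / 1000 := by norm_num
  have hh1 : S.h ≤ 1 / 1000 := hh4.trans hr4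
  obtain ⟨δ, hδ⟩ : ∃ δ, δ = Real.log p - S.h * S.l p := ⟨_, rfl⟩
  have hδ1 : |δ| ≤ S.h / 2 := by
    rw [hδ, abs_sub_comm]
    exact hlp p hp1
  have hpx : (p : ℝ) / S.x t = Real.exp δ / S.x (t - S.l p) := by
    rw [div_eq_div_iff hx0.ne' hx0'.ne', Par.x_sub]
    have h1 : Real.exp δ = p * Real.exp (-(S.h * S.l p)) := by
      rw [hδ, sub_eq_add_neg, Real.exp_add, Real.exp_log hp0]
    rw [h1]
    ring
  have hexp : |Real.exp δ - 1| ≤ S.h := by
    refine (Real.abs_exp_sub_one_le (by linarith)).trans ?_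
    linarith
  have hE : Real.exp δ ≤ 101 / 100 := by
    have := (abs_le.1 hexp).2
    linarith
  set D : ℝ := S.rho * S.x (t - S.l p) with hD
  have hD0 : 0 < D := by positivity
  have key : ∀ c : ℝ, p * c / (S.rho * S.x t) = c * Real.exp δ / D := by
    intro c
    calc p * c / (S.rho * S.x t) = c * (p / S.x t) / S.rho := by field_simp
      _ = c * (Real.exp δ / S.x (t - S.l p)) / S.rho := by rw [hpx]
      _ = c * Real.exp δ / D := by
          rw [hD]
          field_simp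
  -- the three terms
  have h1 : nd (θ (t - S.l p) i - p * θ t j) ≤ e₀ * Real.exp δ / D := by
    rw [← key]
    exact hRE.1
  have h2 : nd (p * (fh S θ T t j - (a : ℝ) / b)) ≤ ν * e₁ * Real.exp δ / D := by
    refine (nd_nat_mul_le p _).trans ?_
    rw [← key, mul_div_assoc]
    exact mul_le_mul_of_nonneg_left hAt hp0.le
  have h3 : nd (T * (p / S.x t - 1 / S.x (t - S.l p))) ≤ e₁ * S.rho ^ 3 / D := by
    refine (nd_le_abs _).trans ?_
    have e1 : (p : ℝ) / S.x t - 1 / S.x (t - S.l p) = (Real.exp δ - 1) / S.x (t - S.l p) := by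
      rw [hpx]
      ring
    rw [e1, abs_mul, abs_div, abs_of_pos hx0']
    calc |T| * (|Real.exp δ - 1| / S.x (t - S.l p))
        ≤ e₁ / S.rho ^ 2 * (S.rho ^ 4 / S.x (t - S.l p)) := by
          have : |Real.exp δ - 1| ≤ S.rho ^ 4 := hexp.trans hh4
          gcongr
      _ = e₁ * S.rho ^ 3 / D := by
          rw [hD]
          field_simp
  obtain ⟨k, hk⟩ := LCE_int hb hmod
  have hdec : fh S θ T (t - S.l p) i - (a' : ℝ) / b =
      ((θ (t - S.l p) i - p * θ t j) + p * (fh S θ T t j - (a : ℝ) / b) +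
        T * (p / S.x t - 1 / S.x (t - S.l p))) + k := by
    rw [← hk]
    unfold fh
    ring
  rw [hdec, nd_add_int]
  have h4 : nd ((θ (t - S.l p) i - p * θ t j) + p * (fh S θ T t j - (a : ℝ) / b) +
        T * (p / S.x t - 1 / S.x (t - S.l p))) ≤
      e₀ * Real.exp δ / D + ν * e₁ * Real.exp δ / D + e₁ * S.rho ^ 3 / D := by
    refine (nd_add_le _ _).trans (add_le_add ((nd_add_le _ _).trans (add_le_add h1 h2)) h3)
  refine h4.trans ?_
  have hr3 : S.rho ^ 3 ≤ 1 := by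
    calc S.rho ^ 3 ≤ (1 / 100) ^ 3 := by gcongr
      _ ≤ 1 := by norm_num
  have hexp0 : 0 < Real.exp δ := Real.exp_pos _
  have h5 : e₀ * Real.exp δ ≤ 1 / 32 * (101 / 100) := by gcongr
  have h6 : ν * e₁ * Real.exp δ ≤ 1 * (1 / 32) * (101 / 100) := by gcongr
  have h7 : e₁ * S.rho ^ 3 ≤ 1 / 32 * 1 := by gcongr
  have h8 : 1 / (8 * D) = (1 / 8) / D := by field_simp
  rw [h8, ← add_div, ← add_div]
  refine div_le_div_of_nonneg_right ?_ hD0.le
  linarith

end Pool.Agent.H55.G3
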